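import Mathlib
import Pool.Agent.Q141.Lens.Certs

set_option autoImplicit false

namespace Pool.Agent.Results.MP_1b0b4e_gt.MinusOneResidue

/-- The linear map of `ℂ^n = ℝ^(2n)` rotating the `j`-th complex coordinate plane (spanned by the
basis vectors number `j` and `n + j` of `ℝ^(2n)`) by the angle `θ j`, as a matrix. -/
noncomputable def blockRotation {n : ℕ} (θ : Fin n → ℝ) : Matrix (Fin (2 * n)) (Fin (2 * n)) ℝ :=
  (Matrix.blockDiagonal fun j => (!![Real.cos (θ j), -Real.sin (θ j);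
    Real.sin (θ j), Real.cos (θ j)] : Matrix (Fin 2) (Fin 2) ℝ)).submatrix
      finProdFinEquiv.symm finProdFinEquiv.symm

/-- `G(q;s)`: the subgroup of `O(2n)` generated by `(z_1,…,z_n) ↦ (ξ^{s_1} z_1,…,ξ^{s_n} z_n)`,
`ξ = e^{2πi/q}`.  The lens space `L(q;s)` is the quotient of the unit sphere by it. -/
noncomputable def lensGroup {n : ℕ} (q : ℕ) (s : Fin n → ℤ) :
    Subgroup (Matrix.orthogonalGroup (Fin (2 * n)) ℝ) :=
  Subgroup.closure {g | g.1 = blockRotation fun j => 2 * Real.pi * (s j : ℝ) / q}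

/-- `Γ` acts freely on the unit sphere of `ℝ^N`: no element other than the identity fixes a unit
vector. -/
def ActsFreely {N : ℕ} (Γ : Subgroup (Matrix.orthogonalGroup (Fin N) ℝ)) : Prop :=
  ∀ g ∈ Γ, g ≠ 1 → ∀ v : Fin N → ℝ, v ⬝ᵥ v = 1 → g.1.mulVec v ≠ v

/-- The dimension of the space of `Γ`-invariant harmonic homogeneous polynomials of degree `k` on
`ℝ^N`, i.e. the multiplicity of the eigenvalue `k (k + N - 2)` of the Laplacian on the quotient of
the unit sphere by `Γ`. -/
noncomputable def multiplicity {N : ℕ} (Γ : Subgroup (Matrix.orthogonalGroup (Fin N) ℝ))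
    (k : ℕ) : ℕ :=
  Module.finrank ℝ ↥(MvPolynomial.homogeneousSubmodule (Fin N) ℝ k ⊓
    LinearMap.ker (∑ i : Fin N,
      (MvPolynomial.pderiv i).toLinearMap ∘ₗ (MvPolynomial.pderiv i).toLinearMap) ⊓
    ⨅ g ∈ Γ, LinearMap.ker ((MvPolynomial.aeval (fun i : Fin N =>
      ∑ j : Fin N, MvPolynomial.C (g.1 i j) * MvPolynomial.X j)).toLinearMap
        - LinearMap.id))

/-- The two quotients of the sphere have the same Laplace spectrum with multiplicities. -/
def Isospectral {N : ℕ} (Γ₁ Γ₂ : Subgroup (Matrix.orthogonalGroup (Fin N) ℝ)) : Prop :=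
  ∀ k : ℕ, multiplicity Γ₁ k = multiplicity Γ₂ k

/-- The two quotients of the sphere are isometric: the groups are conjugate in `O(N)`. -/
def Isometric {N : ℕ} (Γ₁ Γ₂ : Subgroup (Matrix.orthogonalGroup (Fin N) ℝ)) : Prop :=
  ∃ h : Matrix.orthogonalGroup (Fin N) ℝ, ∀ g, g ∈ Γ₁ ↔ h * g * h⁻¹ ∈ Γ₂

/-- `L(q;s)` and `L(q;s')` are `(2n-1)`-dimensional lens spaces with fundamental group of order `q`
(the entries of `s`, `s'` are coprime to `q`, the two groups have order `q` and act freely) which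
are isospectral and not isometric. -/
structure IsLensPair (n q : ℕ) (s s' : Fin n → ℤ) : Prop where
  coprime : ∀ j, IsCoprime (s j) q
  coprime' : ∀ j, IsCoprime (s' j) q
  card : Nat.card (lensGroup q s) = q
  card' : Nat.card (lensGroup q s') = q
  free : ActsFreely (lensGroup q s)
  free' : ActsFreely (lensGroup q s')
  isospectral : Isospectral (lensGroup q s) (lensGroup q s')
  not_isometric : ¬ Isometric (lensGroup q s) (lensGroup q s')

open Pool.Agent.Helper477 Pool.Agent.Helper477.Sph Pool.Agent.Helper477.HarmInv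

theorem free_iff {N : ℕ} (Γ : Subgroup (Matrix.orthogonalGroup (Fin N) ℝ)) :
    ActsFreely Γ ↔ FreeOn Γ := by
  constructor
  · intro h g hg hg1 v hv
    by_contra hv0
    have h1 : 0 < v ⬝ᵥ v := by
      rcases (dot_self_nonneg v).lt_or_eq with h2 | h2
      · exact h2
      · exact absurd (dotProduct_self_eq_zero.mp h2.symm) hv0
    set c := (Real.sqrt (v ⬝ᵥ v))⁻¹ with hc
    refine h g hg hg1 (c • v) ?_ ?_
    · rw [smul_dotProduct, dotProduct_smul, smul_eq_mul, smul_eq_mul, ← mul_assoc, hc, ← mul_inv,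
        Real.mul_self_sqrt h1.le, inv_mul_cancel₀ h1.ne']
    · rw [Matrix.mulVec_smul, hv]
  · intro h g hg hg1 v hv hgv
    rw [h g hg hg1 v hgv] at hv
    simp at hv

theorem iso_of_hilb {N : ℕ} (hN : 0 < N) (Γ₁ Γ₂ : Subgroup (Matrix.orthogonalGroup (Fin N) ℝ))
    (h : hilb Γ₁ = hilb Γ₂) : Isospectral Γ₁ Γ₂ := by
  have hm : ∀ (Γ : Subgroup (Matrix.orthogonalGroup (Fin N) ℝ)) (k : ℕ), multiplicity Γ k =
      Module.finrank ℝ ↥(MvPolynomial.homogeneousSubmodule (Fin N) ℝ k ⊓ LinearMap.ker (D N) ⊓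
        Inv Γ) := fun Γ k => rfl
  intro k
  rw [hm, hm]
  refine isospectral_of_invariants hN Γ₁ Γ₂ (fun k => ?_) k
  have h1 := congrArg (PowerSeries.coeff k) h
  unfold hilb at h1
  rw [PowerSeries.coeff_mk, PowerSeries.coeff_mk] at h1
  exact_mod_cast h1

/-- The lens group only depends on the residues of `s`. -/
theorem lensGroup_eq {n q : ℕ} [NeZero q] (s : Fin n → ℤ) :
    lensGroup q s = LG (fun j => ((s j : ℤ) : ZMod q)) := by
  have hq : (q : ℝ) ≠ 0 := Nat.cast_ne_zero.mpr (NeZero.ne q)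
  have key : blockRotation (fun j => 2 * Real.pi * (s j : ℝ) / q) =
      (lg (fun j => ((s j : ℤ) : ZMod q))).1 := by
    have h1 : (lg (fun j => ((s j : ℤ) : ZMod q))).1 = Lmat (ang fun j => ((s j : ℤ) : ZMod q)) :=
      rfl
    rw [h1]
    unfold blockRotation Lmat
    congr 2
    funext j
    unfold rot ang
    have h2 : ∃ m : ℤ, 2 * Real.pi * (s j : ℝ) / q =
        2 * Real.pi * ((((s j : ℤ) : ZMod q).val : ℕ) : ℝ) / q + m * (2 * Real.pi) := by
      have h3 : ((((((s j : ℤ) : ZMod q).val : ℕ) : ℤ)) : ZMod q) = ((s j : ℤ) : ZMod q) := by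
        rw [Int.cast_natCast, ZMod.natCast_zmod_val]
      obtain ⟨m, hm⟩ := (ZMod.intCast_eq_intCast_iff_dvd_sub _ _ _).mp h3
      refine ⟨m, ?_⟩
      have h4 : (s j : ℝ) = ((((s j : ℤ) : ZMod q).val : ℕ) : ℝ) + q * m := by
        have h5 : (s j : ℤ) = ((((s j : ℤ) : ZMod q).val : ℕ) : ℤ) + q * m := by
          rw [← hm]; ring
        calc (s j : ℝ) = (((((((s j : ℤ) : ZMod q).val : ℕ) : ℤ)) + q * m : ℤ) : ℝ) := by
              rw [← h5]
          _ = _ := by push_cast; ring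
      rw [h4]
      field_simp
    obtain ⟨m, hm⟩ := h2
    have hc : Real.cos (2 * Real.pi * (s j : ℝ) / q) =
        Real.cos (2 * Real.pi * ((((s j : ℤ) : ZMod q).val : ℕ) : ℝ) / q) := by
      rw [hm, Real.cos_add_int_mul_two_pi]
    have hs : Real.sin (2 * Real.pi * (s j : ℝ) / q) =
        Real.sin (2 * Real.pi * ((((s j : ℤ) : ZMod q).val : ℕ) : ℝ) / q) := by
      rw [hm, Real.sin_add_int_mul_two_pi]
    simp only [hc, hs]
  unfold lensGroup LG
  rw [Subgroup.zpowers_eq_closure]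
  congr 1
  ext g
  rw [Set.mem_ofPred_eq, Set.mem_singleton_iff, key]
  exact ⟨fun h => Subtype.ext h, fun h => congrArg Subtype.val h⟩

theorem mkPair {n q κ : ℕ} [NeZero q] (hn : 0 < n) {U L L' : List ℕ} (c : Cert q κ U L L')
    {S S' : Multiset ℕ} {s s' : Fin n → ℤ}
    (hSL : S + (L : Multiset ℕ) = κ • (U : Multiset ℕ))
    (hSL' : S' + (L' : Multiset ℕ) = κ • (U : Multiset ℕ))
    (hS : Finset.univ.val.map s = S.map (Nat.cast : ℕ → ℤ))
    (hS' : Finset.univ.val.map s' = S'.map (Nat.cast : ℕ → ℤ)) : IsLensPair n q s s' := by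
  have hcop : ∀ {S M : Multiset ℕ} {s : Fin n → ℤ}, S + M = κ • (U : Multiset ℕ) →
      Finset.univ.val.map s = S.map (Nat.cast : ℕ → ℤ) → ∀ j, IsCoprime (s j) q := by
    intro S M s hSM hS j
    have h3 : s j ∈ S.map (Nat.cast : ℕ → ℤ) := by
      rw [← hS]
      exact Multiset.mem_map_of_mem _ (Finset.mem_univ_val j)
    obtain ⟨a, ha, ha'⟩ := Multiset.mem_map.mp h3
    have h4 : a ∈ κ • (U : Multiset ℕ) := by
      rw [← hSM]
      exact Multiset.mem_add.mpr (Or.inl ha)
    have h5 := Multiset.mem_of_mem_nsmul h4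
    rw [← ha']
    exact Nat.isCoprime_iff_coprime.mpr (c.hU a (Multiset.mem_coe.mp h5))
  have hunit : ∀ {s : Fin n → ℤ}, (∀ j, IsCoprime (s j) q) → ∀ j, IsUnit ((s j : ℤ) : ZMod q) := by
    intro s hs j
    exact (ZMod.coe_int_isUnit_iff_isCoprime (s j) q).mpr (hs j).symm
  have hc1 := hcop hSL hS
  have hc2 := hcop hSL' hS'
  have hcast : ∀ {S : Multiset ℕ} {s : Fin n → ℤ},
      Finset.univ.val.map s = S.map (Nat.cast : ℕ → ℤ) →
      Finset.univ.val.map (fun j => ((s j : ℤ) : ZMod q)) = S.map (Nat.cast : ℕ → ZMod q) := by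
    intro S s hS
    have h1 := congrArg (Multiset.map (fun x : ℤ => (x : ZMod q))) hS
    rw [Multiset.map_map, Multiset.map_map] at h1
    have h2 : ((fun x : ℤ => (x : ZMod q)) ∘ (Nat.cast : ℕ → ℤ)) = (Nat.cast : ℕ → ZMod q) := by
      funext a
      simp
    rw [h2] at h1
    exact h1
  obtain ⟨h1, h2⟩ := Q141.Lens.lens_explicit c hn hSL hSL' (hcast hS) (hcast hS')
    (hunit hc1) (hunit hc2)
  refine ⟨hc1, hc2, ?_, ?_, ?_, ?_, ?_, ?_⟩
  · rw [lensGroup_eq, card_LG hn (hunit hc1)]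
  · rw [lensGroup_eq, card_LG hn (hunit hc2)]
  · rw [lensGroup_eq, free_iff]
    exact free_LG (hunit hc1)
  · rw [lensGroup_eq, free_iff]
    exact free_LG (hunit hc2)
  · rw [lensGroup_eq, lensGroup_eq]
    exact iso_of_hilb (by omega) _ _ h1
  · rw [lensGroup_eq, lensGroup_eq]
    exact h2

theorem map_getD {n : ℕ} (l : List ℤ) (h : l.length = n) :
    Finset.univ.val.map (fun j : Fin n => l.getD j 0) = (l : Multiset ℤ) := by
  subst h
  rw [Fin.univ_val_map]
  congr 1
  refine List.ext_getElem (by simp) fun i h1 h2 => ?_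
  rw [List.getElem_ofFn, List.getD_eq_getElem]

theorem rep_coe (l : List ℕ) (r : ℕ) : (((List.replicate r l).flatten : List ℕ) : Multiset ℕ) =
    r • (l : Multiset ℕ) := by
  induction r with
  | zero => simp
  | succ r ih =>
    rw [List.replicate_succ, List.flatten_cons, ← Multiset.coe_add, ih, add_comm r 1, add_nsmul,
      one_nsmul]

/-- The list `t(56)`: one of each pair `±t` of units modulo `56`. -/
def t56 : List ℤ := [1, 3, 5, 9, 11, 13, 15, 17, 19, 23, 25, 27]

/-- The parameters `(1,1,3,9,15,15,17,17,23,25,27)` followed by `r` copies of `t(56)`. -/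
def s56 (r : ℕ) : Fin (11 + 12 * r) → ℤ := fun j =>
  ([1, 1, 3, 9, 15, 15, 17, 17, 23, 25, 27] ++ (List.replicate r t56).flatten).getD j 0

/-- The parameters `(1,1,3,9,13,15,15,17,17,23,25)` followed by `r` copies of `t(56)`. -/
def s56' (r : ℕ) : Fin (11 + 12 * r) → ℤ := fun j =>
  ([1, 1, 3, 9, 13, 15, 15, 17, 17, 23, 25] ++ (List.replicate r t56).flatten).getD j 0

/-- For `q = 56` (so `φ(q)/2 = 12`) and every `n = 11 + 12 r ≡ -1 (mod φ(q)/2)`, the
`(2n-1)`-dimensional lens spaces `L(56;s56 r)` and `L(56;s56' r)` are isospectral and not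
isometric; the first pair is `L(56;1,1,3,9,15,15,17,17,23,25,27)` and
`L(56;1,1,3,9,13,15,15,17,17,23,25)`, with `n = 11`. -/
theorem result : ∀ r : ℕ,
    ((11 + 12 * r : ℕ) : ℤ) ≡ -1 [ZMOD ((Nat.totient 56 / 2 : ℕ) : ℤ)] ∧
    IsLensPair (11 + 12 * r) 56 (s56 r) (s56' r) := by
  intro r
  refine ⟨?_, ?_⟩
  · have t : Nat.totient 56 / 2 = 12 := by decide +kernel
    rw [t]
    refine (Int.modEq_iff_dvd.mpr ⟨-(r + 1), ?_⟩)
    push_cast
    ring
  · have hl : ((List.replicate r t56).flatten).length = 12 * r := by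
      rw [List.length_flatten, List.map_replicate, List.sum_replicate]
      simp [t56, mul_comm]
    have ht : t56 = ([1, 3, 5, 9, 11, 13, 15, 17, 19, 23, 25, 27] : List ℕ).map
        (Nat.cast : ℕ → ℤ) := rfl
    have hfl : (List.replicate r t56).flatten =
        ((List.replicate r ([1, 3, 5, 9, 11, 13, 15, 17, 19, 23, 25, 27] : List ℕ)).flatten).map
          (Nat.cast : ℕ → ℤ) := by
      rw [List.map_flatten, List.map_replicate, ht]
    have hsum : ∀ B M : List ℕ, ((B ++ M : List ℕ) : Multiset ℕ) =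
        2 • (([1, 3, 5, 9, 11, 13, 15, 17, 19, 23, 25, 27] : List ℕ) : Multiset ℕ) →
        ((B ++ (List.replicate r ([1, 3, 5, 9, 11, 13, 15, 17, 19, 23, 25, 27] : List ℕ)).flatten :
          List ℕ) : Multiset ℕ) + (M : Multiset ℕ) =
        (2 + r) • (([1, 3, 5, 9, 11, 13, 15, 17, 19, 23, 25, 27] : List ℕ) : Multiset ℕ) := by
      intro B M h
      rw [← Multiset.coe_add, rep_coe, add_nsmul, ← h, ← Multiset.coe_add, add_right_comm]
    refine mkPair (by omega) (Q141.Lens.Cert.mono Q141.Lens.cert56 (show 2 ≤ 2 + r by omega))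
      (S := (([1, 1, 3, 9, 15, 15, 17, 17, 23, 25, 27] ++
        (List.replicate r ([1, 3, 5, 9, 11, 13, 15, 17, 19, 23, 25, 27] : List ℕ)).flatten :
          List ℕ) : Multiset ℕ))
      (S' := (([1, 1, 3, 9, 13, 15, 15, 17, 17, 23, 25] ++
        (List.replicate r ([1, 3, 5, 9, 11, 13, 15, 17, 19, 23, 25, 27] : List ℕ)).flatten :
          List ℕ) : Multiset ℕ)) ?_ ?_ ?_ ?_
    · exact hsum _ _ (by decide +kernel)
    · exact hsum _ _ (by decide +kernel)
    · unfold s56
      rw [map_getD _ (by rw [List.length_append, hl]; rfl), Multiset.map_coe, List.map_append, hfl]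
      rfl
    · unfold s56'
      rw [map_getD _ (by rw [List.length_append, hl]; rfl), Multiset.map_coe, List.map_append, hfl]
      rfl

end Pool.Agent.Results.MP_1b0b4e_gt.MinusOneResidue
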